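import Pool.Agent.Q170.PO.St

/-!
# Project PO, job PAIR: Tate parameters of two isogenous curves with invariants of equal norm
-/

set_option autoImplicit false
set_option linter.unusedSectionVars false

open UpperHalfPlane H294ZP Polynomial

namespace Pool.Agent.Q257.PO

open Pool.Agent.Y226 Pool.Agent.Y226.ZG Pool.Agent.Y226.ZM Pool.Agent.Q170.PO

theorem pair : S_PAIR := by
  intro C _ _ _ _ _ p hpf φ hp0 hp1 X Y hX hYX τ w a b c d hdet hw hjτ hkw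
  set ψ := φ.comp iA with hψdef
  have hψ : ∀ z, ‖ψ z‖ ≤ 1 := psi_norm φ
  have hY : 1 < ‖φ Y‖ := by rw [hYX]; exact hX
  obtain ⟨A, B, g, ζ, hA, hB, hAB, hg, hζ, hq, -, hΨ, -⟩ :=
    tate_rel3 (ψ := ψ) (i₀ := iA) hψ rA_comp rfl hdet hw hjτ hkw hX
  have hζn : ‖ζ‖ = 1 := by
    have h1 : ‖ζ‖ ^ g = 1 := by rw [← norm_pow, hζ.pow_eq_one, norm_one]
    exact (pow_eq_one_iff_of_nonneg (norm_nonneg _) hg.ne').1 h1
  have hr0 : 0 < ‖φ X‖⁻¹ := inv_pos.2 (one_pos.trans hX)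
  have hr1 : ‖φ X‖⁻¹ < 1 := inv_lt_one_of_one_lt₀ hX
  have hBA : B = A := by
    have h1 := congrArg norm hq
    rw [norm_mul, norm_pow, norm_pow, hζn, one_mul, qT_norm hψ hY, qT_norm hψ hX, hYX] at h1
    exact pow_right_injective₀ hr0 hr1.ne h1
  subst hBA
  have hB1 : B = 1 := by
    have h2 : Nat.gcd B B = 1 := hAB
    rwa [Nat.gcd_self] at h2
  subst hB1
  rw [pow_one, pow_one] at hq
  rw [one_mul, one_mul] at hΨ
  obtain ⟨g', s, ζ', ε, hgg, hg'p, hζ', hε, hζe⟩ := root_decomp (p := p) hg hζ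
  have hg'0 : 0 < g' := Nat.pos_of_ne_zero (by
    rintro rfl
    rw [zero_mul] at hgg
    omega)
  have hζ'0 : ζ' ≠ 0 := hζ'.ne_zero hg'0.ne'
  have hε0 : ε ≠ 0 := hε.ne_zero (pow_pos hpf.out.pos _).ne'
  refine ⟨g', s, Units.mk0 ζ' hζ'0, Units.mk0 ε hε0, hg'0, hg'p, hζ', hε, ?_, ?_⟩
  · set r := ‖φ X‖⁻¹ with hr
    set qX := qT ψ (φ X) with hqX
    set qY := qT ψ (φ Y) with hqY
    set cc := φ (iA (cj 1)) with hcc
    have hcc' : ψ (cj 1) = cc := rfl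
    have hcn : ‖cc‖ ≤ 1 := hψ _
    have hφX0 : φ X ≠ 0 := norm_pos_iff.1 (one_pos.trans hX)
    have hφY0 : φ Y ≠ 0 := norm_pos_iff.1 (one_pos.trans hY)
    have hqX0 : qX ≠ 0 := qT_ne hψ hX
    have hqY0 : qY ≠ 0 := qT_ne hψ hY
    have eX := qT_expand hψ hX
    have eY := qT_expand hψ hY
    have eX1 := qT_expand' hψ hX
    rw [hcc', ← hqX] at eX
    rw [hcc', ← hqY, hYX] at eY
    rw [← hqX] at eX1
    set uX := qX * φ X with huX
    set uY := qY * φ Y with huY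
    have huX1 : ‖uX‖ = 1 := neq_one (eX1.trans_lt hr1) norm_one
    have huX0 : uX ≠ 0 := norm_pos_iff.1 (by rw [huX1]; exact one_pos)
    have e3 : φ Y / φ X * ((Units.mk0 ζ' hζ'0 * Units.mk0 ε hε0 : Cˣ) : C) = uY * uX⁻¹ := by
      rw [Units.val_mul, Units.val_mk0, Units.val_mk0, ← hζe, huX, huY, hq]
      field_simp
    rw [e3]
    have e4 : uY * uX⁻¹ - (1 + cc * ((φ Y)⁻¹ - (φ X)⁻¹)) =
        ((uY - (1 + cc * (φ Y)⁻¹)) - (uX - (1 + cc * (φ X)⁻¹)) -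
          (uX - 1) * (cc * ((φ Y)⁻¹ - (φ X)⁻¹))) * uX⁻¹ := by
      field_simp
      ring
    rw [e4]
    refine nmul_le' (nsub_le (nsub_le eY eX) ?_) (by rw [norm_inv, huX1, inv_one])
    rw [norm_mul, sq]
    have h2 : ‖cc * ((φ Y)⁻¹ - (φ X)⁻¹)‖ ≤ r := by
      refine nmul_le hcn (nsub_le ?_ ?_)
      · rw [norm_inv, hYX]
      · rw [norm_inv]
    gcongr
  · rw [hjτ, hkw, ← hgg]
    exact hΨ

end Pool.Agent.Q257.PO
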