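import Pool.Agent.Q170.PO.St
import Pool.Agent.Y226.ZP.Teich

/-!
# Project PO, job WILD: wild torsion at a point
-/

set_option autoImplicit false
set_option linter.unusedSectionVars false

open UpperHalfPlane H294ZP Polynomial

namespace Pool.Agent.Q257.PO

open Pool.Agent.Y226 Pool.Agent.Y226.ZG Pool.Agent.Y226.ZM Pool.Agent.Q170.PO

section

variable {C : Type} [NormedField C] [IsUltrametricDist C]
variable {p : ℕ} [hpf : Fact p.Prime]

theorem vl_sub_le (P : ℤ[X]) {u e : C} (hu : ‖u‖ ≤ 1) (he : ‖e‖ ≤ 1) :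
    ‖vl P u - vl P e‖ ≤ ‖u - e‖ := by
  unfold vl
  rw [eval₂_eq_sum_range, eval₂_eq_sum_range, ← Finset.sum_sub_distrib]
  refine nsum_le _ _ (norm_nonneg _) fun i _ => ?_
  rw [← mul_sub]
  refine nmul_le ?_ (npow_sub_pow hu he le_rfl i)
  rw [eq_intCast]
  exact nint _

theorem vl_Nr (P : ℤ[X]) {e : C} (he : e ∈ Nr C p) : vl P e ∈ Nr C p := by
  unfold vl
  rw [eval₂_eq_sum_range]
  refine sum_mem fun i _ => mul_mem ?_ (pow_mem he _)
  rw [eq_intCast]
  exact intCast_mem _ _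

theorem vl_one (P : ℤ[X]) {u e : C} (hu : ‖u‖ ≤ 1) (he : ‖e‖ ≤ 1) (h : ‖u - e‖ < 1)
    (hP : ‖vl P u‖ = 1) : ‖vl P e‖ = 1 := by
  refine neq_one ?_ hP
  rw [norm_sub_rev]
  exact (vl_sub_le P hu he).trans_lt h

end

theorem near : S_NEAR := by
  intro C _ _ _ _ _ p hpf hp0 hp1 P Q u e hu he hue hPu hQu F₁ hF₁ ε₁ hε₁ τ h0 h1 hpτ hG
  obtain ⟨w₁, hw₁, hw₁n, hw₁l⟩ := hG
  by_contra hcon
  push Not at hcon
  have hen : ‖e‖ ≤ 1 := Nr_le he
  have hPe : ‖vl P e‖ = 1 := vl_one P hu hen hue hPu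
  have hQe : ‖vl Q e‖ = 1 := vl_one Q hu hen hue hQu
  have hQu0 : vl Q u ≠ 0 := norm_pos_iff.1 (by rw [hQu]; exact one_pos)
  have hQe0 : vl Q e ≠ 0 := norm_pos_iff.1 (by rw [hQe]; exact one_pos)
  set G : C := vl P e * (vl Q e)⁻¹ with hG
  have hGm : G ∈ Nr C p := mul_mem (vl_Nr P he) (Nr_inv (vl_Nr Q he) hQe)
  have hGn : ‖G‖ = 1 := by rw [hG, norm_mul, norm_inv, hPe, hQe, inv_one, one_mul]
  have hFG : ‖(F₁ : C) - G‖ ≤ ‖u - e‖ := by
    have e1 : (F₁ : C) - G = ((vl P u - vl P e) * vl Q e - vl P e * (vl Q u - vl Q e)) *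
        ((vl Q u)⁻¹ * (vl Q e)⁻¹) := by
      have e2 : (F₁ : C) = vl P u * (vl Q u)⁻¹ := by
        rw [← hF₁, mul_assoc, mul_inv_cancel₀ hQu0, mul_one]
      rw [e2, hG]
      field_simp
      ring
    rw [e1]
    refine nmul_le' (nsub_le ?_ ?_) ?_
    · exact nmul_le' (vl_sub_le P hu hen) hQe.le
    · exact nmul_le hPe.le (vl_sub_le Q hu hen)
    · rw [norm_mul, norm_inv, norm_inv, hQu, hQe, inv_one, one_mul]
  have hεn : ‖(ε₁ : C)‖ = 1 := neq_one hε₁ norm_one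
  have e3 : w₁ - G = (-(((F₁ * ε₁ : Cˣ) : C) - w₁) + ((F₁ : C) - G) * ε₁) + G * ((ε₁ : C) - 1) := by
    rw [Units.val_mul]
    ring
  have h3 : ‖w₁ - G‖ = ‖(ε₁ : C) - 1‖ := by
    have h4 : ‖G * ((ε₁ : C) - 1)‖ = ‖(ε₁ : C) - 1‖ := by rw [norm_mul, hGn, one_mul]
    rw [← h4]
    apply neq_of_sub_lt
    rw [h4, e3, add_sub_cancel_right]
    refine lt_of_le_of_lt ?_ hcon
    refine nadd_le ?_ ?_
    · rw [norm_neg]
      exact hw₁l.trans (le_max_right _ _)
    · exact (nmul_le' hFG hεn.le).trans (le_max_left _ _)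
  have h5 := Nr_gap (sub_mem hw₁ hGm) (by rw [h3]; exact hε₁)
  rw [h3] at h5
  exact absurd (h5.trans (hpτ.trans (le_max_right _ _))) (not_le.2 hcon)

section

variable {C : Type} [NormedField C] [IsUltrametricDist C]
variable {p : ℕ} [hpf : Fact p.Prime]

/-- the contact lemma for a polynomial over `Nr` with a unit among its first Taylor coefficients -/
theorem contact3 {Ψ : (Nr C p)[X]} {e : Nr C p} {D : ℕ}
    (hex : ∃ i, i ≤ D ∧ ‖(((taylor e Ψ).coeff i : Nr C p) : C)‖ = 1) {u : C}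
    (h : ‖u - e‖ < 1) {θ : ℝ} (hθ : ‖(p : C)‖ ≤ θ) (hθ0 : 0 < θ)
    (ht : ‖Ψ.eval₂ (Nr C p).subtype u‖ ≤ θ) : ‖u - e‖ ^ D ≤ θ := by
  classical
  set r := Nat.find hex with hr
  obtain ⟨hrD, hr1⟩ := Nat.find_spec hex
  have hmin : ∀ i < r, ‖(((taylor e Ψ).coeff i : Nr C p) : C)‖ ≤ ‖(p : C)‖ := by
    intro i hi
    have h3 := Nat.find_min hex hi
    push Not at h3
    exact Nr_gap ((taylor e Ψ).coeff i).2
      (lt_of_le_of_ne (Nr_le ((taylor e Ψ).coeff i).2) (h3 (by omega)))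
  refine (pow_le_pow_of_le_one (norm_nonneg _) h.le hrD).trans ?_
  by_contra hcon
  push Not at hcon
  set w : C := (((taylor e Ψ).coeff r : Nr C p) : C) with hw
  have hn : ‖w * (u - e) ^ r‖ = ‖u - e‖ ^ r := by rw [norm_mul, hr1, one_mul, norm_pow]
  have heval : Ψ.eval₂ (Nr C p).subtype u =
      ∑ i ∈ Finset.range (r + 1 + (taylor e Ψ).natDegree),
        (((taylor e Ψ).coeff i : Nr C p) : C) * (u - e) ^ i := by
    have h1 : Ψ.eval₂ (Nr C p).subtype u = (taylor e Ψ).eval₂ (Nr C p).subtype (u - e) := by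
      rw [← eval_map, ← eval_map, map_taylor, taylor_eval]
      congr 1
      rw [Subring.subtype_apply, sub_add_cancel]
    rw [h1, eval₂_eq_sum_range' (n := r + 1 + (taylor e Ψ).natDegree)]
    · rfl
    · omega
  have hlt : ‖Ψ.eval₂ (Nr C p).subtype u - w * (u - e) ^ r‖ < ‖w * (u - e) ^ r‖ := by
    have hr' : r ∈ Finset.range (r + 1 + (taylor e Ψ).natDegree) := by
      rw [Finset.mem_range]; omega
    rw [heval, ← Finset.add_sum_erase _ _ hr', ← hw, add_sub_cancel_left, hn]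
    have h0 : 0 < ‖u - e‖ ^ r := hθ0.trans hcon
    have hle : ‖∑ i ∈ (Finset.range (r + 1 + (taylor e Ψ).natDegree)).erase r,
        (((taylor e Ψ).coeff i : Nr C p) : C) * (u - e) ^ i‖ ≤
        max ‖(p : C)‖ (‖u - e‖ ^ (r + 1)) := by
      refine nsum_le _ _ (le_max_of_le_left (norm_nonneg _)) fun i hi => ?_
      have hne := Finset.ne_of_mem_erase hi
      rcases lt_or_gt_of_ne hne with h4 | h4
      · exact (nmul_le' (hmin i h4) (npow_le h.le _)).trans (le_max_left _ _)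
      · refine (nmul_le (Nr_le ((taylor e Ψ).coeff i).2) le_rfl).trans (le_max_of_le_right ?_)
        rw [norm_pow]
        exact pow_le_pow_of_le_one (norm_nonneg _) h.le h4
    refine hle.trans_lt (max_lt (hθ.trans_lt hcon) ?_)
    rw [pow_succ]
    calc ‖u - e‖ ^ r * ‖u - e‖ < ‖u - e‖ ^ r * 1 := by gcongr
      _ = ‖u - e‖ ^ r := mul_one _
  have h5 := neq_of_sub_lt hlt
  rw [h5, hn] at ht
  exact absurd ht (not_le.2 hcon)

end

/-- the algebraic part -/
theorem wron {k : Type} [Field k] {P Q P₂ Q₂ : k[X]} {a w : k} {γ n : ℕ}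
    (hw : w ≠ 0) (hQ₂ : Q₂.eval a ≠ 0) (hP : P.eval a ≠ 0)
    (h : (X - C a) ^ (n + 1) ∣ P₂ * Q ^ γ - C w * (Q₂ * P ^ γ)) :
    (X - C a) ^ n ∣ (derivative P₂ * Q₂ - P₂ * derivative Q₂) * (P * Q) -
      C (γ : k) * ((derivative P * Q - P * derivative Q) * (P₂ * Q₂)) := by
  set A := P₂ * Q ^ γ with hA
  set B := C w * (Q₂ * P ^ γ) with hB
  have h1 : (X - C a) ^ n ∣ A - B := (pow_dvd_pow _ (Nat.le_succ n)).trans h
  have h2 : (X - C a) ^ n ∣ derivative (A - B) := by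
    have := pow_sub_one_dvd_derivative_of_pow_dvd h
    rwa [Nat.add_sub_cancel] at this
  have hpw : ∀ R : k[X], R * derivative (R ^ γ) = C (γ : k) * derivative R * R ^ γ := by
    intro R
    rw [derivative_pow]
    rcases Nat.eq_zero_or_pos γ with h0 | h0
    · rw [h0]; simp
    · have : R ^ γ = R * R ^ (γ - 1) := by
        rw [← pow_succ']
        congr 1
        omega
      rw [this]
      ring
  have eA : P * Q * P₂ * Q₂ * derivative A =
      A * (derivative P₂ * P * Q * Q₂ + C (γ : k) * derivative Q * P * P₂ * Q₂) := by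
    rw [hA, derivative_mul]
    linear_combination (P * P₂ * Q₂ * P₂) * hpw Q
  have eB : P * Q * P₂ * Q₂ * derivative B =
      B * (derivative Q₂ * P * Q * P₂ + C (γ : k) * derivative P * Q * P₂ * Q₂) := by
    rw [hB, derivative_mul, derivative_mul, derivative_C]
    linear_combination (Q * P₂ * Q₂ * C w * Q₂) * hpw P
  have h3 : (X - C a) ^ n ∣ B * ((derivative P₂ * Q₂ - P₂ * derivative Q₂) * (P * Q) -
      C (γ : k) * ((derivative P * Q - P * derivative Q) * (P₂ * Q₂))) := by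
    have e1 : B * ((derivative P₂ * Q₂ - P₂ * derivative Q₂) * (P * Q) -
      C (γ : k) * ((derivative P * Q - P * derivative Q) * (P₂ * Q₂))) =
      P * Q * P₂ * Q₂ * derivative (A - B) - (A - B) *
        (derivative P₂ * P * Q * Q₂ + C (γ : k) * derivative Q * P * P₂ * Q₂) := by
      rw [derivative_sub]
      linear_combination -eA + eB
    rw [e1]
    exact dvd_sub (h2.mul_left _) (h1.mul_right _)
  refine IsCoprime.dvd_of_dvd_mul_left ?_ h3
  refine IsCoprime.pow_left ?_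
  rw [(irreducible_X_sub_C a).coprime_iff_not_dvd, dvd_iff_isRoot, IsRoot, hB, eval_mul, eval_mul,
    eval_pow, eval_C]
  exact mul_ne_zero hw (mul_ne_zero hQ₂ (pow_ne_zero _ hP))

theorem wr_deg {P Q : ℤ[X]} {d : ℕ} (hd : 0 < d) (hP : P.natDegree ≤ d) (hQ : Q.natDegree ≤ d) :
    (wr P Q).natDegree ≤ 2 * d - 1 := by
  unfold wr
  refine (natDegree_sub_le _ _).trans (max_le ?_ ?_)
  · have h1 := natDegree_mul_le (p := derivative P) (q := Q)
    have h2 := natDegree_derivative_le P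
    omega
  · have h1 := natDegree_mul_le (p := P) (q := derivative Q)
    have h2 := natDegree_derivative_le Q
    omega

theorem wild : S_WILD := by
  intro C _ _ _ _ _ p hpf hp2 hp0 hp1 d hd P Q P₂ Q₂ dP dQ dP₂ dQ₂ hNW u e hu he hue hPu hQu hP₂u
    hQ₂u F₁ F₂ hF₁ hF₂ s ε₁ ε₂ hε₁ hε₂ τ h0 h1 hpτ hG₁ hG₂
  have hlt : ‖(ε₁ : C) - 1‖ < 1 := ppow_root_lt hp1 hε₁.pow_eq_one
  have hτ0 : 0 < τ := hp0.trans_le hpτ
  have hεn : ‖(ε₁ : C)‖ = 1 := neq_one hlt norm_one
  have hnear := near C p hp0 hp1 P Q u e hu he hue hPu hQu F₁ hF₁ ε₁ hlt τ h0 h1 hpτ hG₁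
  obtain ⟨w₁, hw₁, hw₁n, hw₁l⟩ := hG₁
  obtain ⟨w₂, hw₂, hw₂n, hw₂l⟩ := hG₂
  obtain ⟨γ, -, hγ⟩ := hε₁.eq_pow_of_pow_eq_one hε₂
  have hen : ‖e‖ ≤ 1 := Nr_le he
  have hPe : ‖vl P e‖ = 1 := vl_one P hu hen hue hPu
  have hQ₂e : ‖vl Q₂ e‖ = 1 := vl_one Q₂ hu hen hue hQ₂u
  have hw₁0 : w₁ ≠ 0 := norm_pos_iff.1 (by rw [hw₁n]; exact one_pos)
  -- the constant
  set w : Nr C p := ⟨w₂ * (w₁⁻¹) ^ γ, mul_mem hw₂ (pow_mem (Nr_inv hw₁ hw₁n) _)⟩ with hw
  have hwn : ‖(w : C)‖ = 1 := by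
    show ‖w₂ * (w₁⁻¹) ^ γ‖ = 1
    rw [norm_mul, norm_pow, norm_inv, hw₁n, hw₂n, inv_one, one_pow, one_mul]
  -- the polynomial
  set co : ℤ →+* Nr C p := Int.castRingHom _ with hco
  set Ψ : (Nr C p)[X] := P₂.map co * Q.map co ^ γ - Polynomial.C w * (Q₂.map co * P.map co ^ γ)
    with hΨ
  set eN : Nr C p := ⟨e, he⟩ with heN
  have hval : Ψ.eval₂ (Nr C p).subtype u = vl P₂ u * vl Q u ^ γ - w * (vl Q₂ u * vl P u ^ γ) := by
    rw [hΨ, eval₂_sub, eval₂_mul, eval₂_mul, eval₂_mul, eval₂_pow, eval₂_pow, eval₂_C, eval₂_map,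
      eval₂_map, eval₂_map, eval₂_map]
    have : ((Nr C p).subtype).comp co = Int.castRingHom C := RingHom.ext_int _ _
    rw [this]
    rfl
  have hsmall : ‖Ψ.eval₂ (Nr C p).subtype u‖ ≤ τ := by
    have e1 : Ψ.eval₂ (Nr C p).subtype u =
        (vl Q₂ u * vl Q u ^ γ) * ((((F₂ * ε₂ : Cˣ) : C) - w₂) -
          w * (((F₁ * ε₁ : Cˣ) : C) ^ γ - w₁ ^ γ)) * ((ε₂ : C))⁻¹ := by
      have hε₂0 : (ε₂ : C) ≠ 0 := ε₂.ne_zero
      have hwe : (w : C) * w₁ ^ γ = w₂ := by
        show w₂ * (w₁⁻¹) ^ γ * w₁ ^ γ = w₂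
        rw [mul_assoc, ← mul_pow, inv_mul_cancel₀ hw₁0, one_pow, mul_one]
      rw [hval, Units.val_mul, Units.val_mul, mul_pow, hγ, ← hF₁, ← hF₂, mul_pow]
      field_simp
      linear_combination (-(vl Q₂ u * vl Q u ^ γ)) * hwe
    have hε₂n : ‖(ε₂ : C)‖ = 1 := by rw [← hγ, norm_pow, hεn, one_pow]
    have hFε : ‖((F₁ * ε₁ : Cˣ) : C)‖ ≤ 1 := (neq_one (hw₁l.trans_lt h1) hw₁n).le
    rw [e1]
    refine nmul_le' (nmul_le ?_ (nsub_le hw₂l (nmul_le hwn.le ?_))) ?_
    · rw [norm_mul, norm_pow, hQu, hQ₂u, one_pow, one_mul]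
    · exact npow_sub_pow hFε hw₁n.le hw₁l γ
    · rw [norm_inv, hε₂n, inv_one]
  -- a unit among the Taylor coefficients
  have hex : ∃ i, i ≤ 4 * d ∧ ‖(((taylor eN Ψ).coeff i : Nr C p) : C)‖ = 1 := by
    by_contra hcon
    push Not at hcon
    obtain ⟨k, _, _, red, hker⟩ := exists_residue (C := C) (p := p) hp1
    set rr : Nr C p →+* k := red.comp (Subring.inclusion (fun x hx => Nr_le hx)) with hrr
    have hkr : ∀ x : Nr C p, rr x = 0 ↔ ‖(x : C)‖ < 1 := fun x => hker _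
    have hcomp : rr.comp co = (ZMod.castHom (dvd_refl p) k).comp (Int.castRingHom (ZMod p)) :=
      RingHom.ext_int _ _
    have hzero : ∀ i < 4 * d + 1, ((taylor eN Ψ).map rr).coeff i = 0 := by
      intro i hi
      rw [coeff_map, hkr]
      exact lt_of_le_of_ne (Nr_le ((taylor eN Ψ).coeff i).2) (hcon i (by omega))
    have hdvd : (X - Polynomial.C (rr eN)) ^ (4 * d + 1) ∣ Ψ.map rr := by
      rw [X_sub_C_pow_dvd_iff, ← taylor_apply, ← map_taylor, X_pow_dvd_iff]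
      exact hzero
    rw [hΨ, Polynomial.map_sub, Polynomial.map_mul, Polynomial.map_mul, Polynomial.map_mul,
      Polynomial.map_pow, Polynomial.map_pow, map_C] at hdvd
    have hne : ∀ R : ℤ[X], ‖vl R e‖ = 1 → ((R.map co).map rr).eval (rr eN) ≠ 0 := by
      intro R hR
      rw [eval_map_apply, Ne, hkr]
      have : (((R.map co).eval eN : Nr C p) : C) = vl R e := by
        have h2 := vl_map (Nr C p).subtype R eN
        rw [eval_map]
        exact h2
      rw [this, hR]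
      exact lt_irrefl _
    have hw0 : rr w ≠ 0 := by
      rw [Ne, hkr, hwn]
      exact lt_irrefl _
    have h3 := wron hw0 (hne Q₂ hQ₂e) (hne P hPe) hdvd
    set E : ℤ[X] := wr P₂ Q₂ * (P * Q) - Polynomial.C (γ : ℤ) * (wr P Q * (P₂ * Q₂)) with hE
    have h4 : (derivative ((P₂.map co).map rr) * (Q₂.map co).map rr -
        (P₂.map co).map rr * derivative ((Q₂.map co).map rr)) *
        ((P.map co).map rr * (Q.map co).map rr) -
      Polynomial.C (γ : k) * ((derivative ((P.map co).map rr) * (Q.map co).map rr -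
        (P.map co).map rr * derivative ((Q.map co).map rr)) *
        ((P₂.map co).map rr * (Q₂.map co).map rr)) = (rd p E).map (ZMod.castHom (dvd_refl p) k) := by
      have h40 : (rd p E).map (ZMod.castHom (dvd_refl p) k) = (E.map co).map rr := by
        unfold rd
        rw [map_map, map_map, hcomp]
      rw [h40, hE]
      unfold wr
      simp only [Polynomial.map_sub, Polynomial.map_mul, derivative_map, map_natCast,
        Polynomial.map_natCast]
    rw [h4] at h3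
    have hE0 : rd p E ≠ 0 := by
      have := hNW (γ : ZMod p)
      rw [hE]
      unfold rd at this ⊢
      rw [Polynomial.map_sub, Polynomial.map_mul (p := Polynomial.C (γ : ℤ)), map_C]
      simpa using this
    have hE1 : (rd p E).map (ZMod.castHom (dvd_refl p) k) ≠ 0 := by
      rw [Ne, Polynomial.map_eq_zero]
      exact hE0
    have h5 := natDegree_le_of_dvd h3 hE1
    rw [natDegree_pow, natDegree_X_sub_C, mul_one] at h5
    have h6 : ((rd p E).map (ZMod.castHom (dvd_refl p) k)).natDegree ≤ E.natDegree :=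
      natDegree_map_le.trans natDegree_map_le
    have h7 : E.natDegree ≤ 4 * d - 1 := by
      have w1 := wr_deg hd dP₂ dQ₂
      have w2 := wr_deg hd dP dQ
      have w3 := natDegree_mul_le (p := wr P₂ Q₂) (q := P * Q)
      have w4 := natDegree_mul_le (p := P) (q := Q)
      have w5 := natDegree_mul_le (p := wr P Q) (q := P₂ * Q₂)
      have w6 := natDegree_mul_le (p := P₂) (q := Q₂)
      have w7 := natDegree_C_mul_le (γ : ℤ) (wr P Q * (P₂ * Q₂))
      rw [hE]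
      refine (natDegree_sub_le _ _).trans (max_le ?_ ?_) <;> omega
    omega
  have hfin := contact3 (u := u) hex hue hpτ hτ0 hsmall
  refine (pow_le_pow_left₀ (norm_nonneg _) hnear _).trans ?_
  rcases le_total ‖u - e‖ τ with h8 | h8
  · rw [max_eq_right h8]
    exact pow_le_of_le_one h0 h1.le (by omega)
  · rw [max_eq_left h8]
    exact hfin

end Pool.Agent.Q257.PO
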